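import Mathlib

/-! Topological realizations of the `(17_4)` configuration in the extended Euclidean plane. -/

open scoped LinearAlgebra.Projectivization

namespace Pool.Agent.N396.C17

/-- The Euclidean plane. -/
abbrev Plane := EuclideanSpace ℝ (Fin 2)

/-- The real projective plane as the extended Euclidean plane: its points `[x : t]` are the lines
through the origin of `Plane × ℝ`. -/
abbrev RP2 := ℙ ℝ (Plane × ℝ)

/-- The quotient topology of the projective plane. -/
noncomputable instance : TopologicalSpace RP2 :=
  TopologicalSpace.coinduced (Projectivization.mk' ℝ : {v : Plane × ℝ // v ≠ 0} → RP2)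
    inferInstance

/-- The point `[x : 1]` of the projective plane given by the point `x` of the Euclidean plane. -/
noncomputable def toRP2 (x : Plane) : RP2 := Projectivization.mk ℝ (x, (1 : ℝ)) (by simp)

/-- The line at infinity: the points of the projective plane outside the Euclidean plane. -/
def lineAtInfinity : Set RP2 := (Set.range toRP2)ᶜ

/-- A pseudoline: a simple closed curve in the projective plane which is not contractible. -/
def IsPseudoline (L : Set RP2) : Prop :=
  ∃ γ : C(Circle, RP2), Topology.IsEmbedding γ ∧ ¬ γ.Nullhomotopic ∧ Set.range γ = L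

/-- The curves `L` and `M` cross at the point `p`: in suitable local coordinates around `p` they
are the two coordinate axes. -/
def CrossAt (L M : Set RP2) (p : RP2) : Prop :=
  ∃ φ : OpenPartialHomeomorph RP2 (ℝ × ℝ), p ∈ φ.source ∧ φ p = (0, 0) ∧
    ∀ q ∈ φ.source, (q ∈ L ↔ (φ q).2 = 0) ∧ (q ∈ M ↔ (φ q).1 = 0)

/-- The 17 lines of the configuration, as sets of labels `1, ..., 17`. -/
def config : Fin 17 → Finset ℕ :=
  ![{1, 2, 3, 4}, {1, 5, 6, 7}, {1, 8, 9, 10}, {1, 11, 12, 13}, {2, 5, 8, 14}, {2, 6, 9, 15},
    {2, 7, 11, 16}, {3, 5, 12, 15}, {3, 6, 8, 16}, {3, 7, 9, 17}, {4, 5, 11, 17}, {4, 6, 10, 13},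
    {4, 7, 12, 14}, {8, 13, 15, 17}, {9, 13, 14, 16}, {10, 11, 14, 15}, {10, 12, 16, 17}]

/-- A topological realization of the configuration: 17 points and an arrangement of 17 pseudolines
of the projective plane with the prescribed incidences. `point i` has the label `i + 1`. -/
structure Realization where
  point : Fin 17 → RP2
  curve : Fin 17 → Set RP2
  point_injective : Function.Injective point
  isPseudoline : ∀ j, IsPseudoline (curve j)
  cross_once : ∀ j k, j ≠ k → ∃ p, curve j ∩ curve k = {p} ∧ CrossAt (curve j) (curve k) p
  incidence : ∀ i j, point i ∈ curve j ↔ (i : ℕ) + 1 ∈ config j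

/-- The realization lies in the Euclidean plane proper: no point is on the line at infinity, which
is not one of the pseudolines. -/
def Realization.IsProper (R : Realization) : Prop :=
  (∀ i, R.point i ∉ lineAtInfinity) ∧ ∀ j, R.curve j ≠ lineAtInfinity

/-- `T` is a symmetry of the realization: an isometry of the Euclidean plane other than the
identity whose (unique) continuous extension `F` to the projective plane maps the set of the
points onto itself and the set of the pseudolines onto itself. -/
def Realization.IsSymmetry (R : Realization) (T : Plane → Plane) : Prop :=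
  Isometry T ∧ T ≠ id ∧
    ∃ F : RP2 → RP2, Continuous F ∧ (∀ x, F (toRP2 x) = toRP2 (T x)) ∧
      F '' Set.range R.point = Set.range R.point ∧
      (fun L => F '' L) '' Set.range R.curve = Set.range R.curve

end Pool.Agent.N396.C17
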