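import Mathlib
import Pool.Agent.N396.C17.Defs

/-! Automorphisms of the `(17_4)` configuration: every one of them, or its square if that is not
the identity, fixes the points 1, 4, 6, 10, 13. -/

namespace Pool.Agent.N396.C17.Aut

open Pool.Agent.N396.C17 (config)

/-- bit masks of the lines (bit `i` for the point `i + 1`) -/
def masks : List ℕ :=
  [15, 113, 897, 7169, 8338, 16674, 33858, 18452, 32932, 65860, 66584, 4648, 10312, 86144, 45312,
    26112, 100864]

/-- bit `17 i + j` is set if the points `i`, `j` lie on a line -/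
def big : ℕ :=
  932214518975038342990029800600250697812186637038078530834785747099835524777783137804287

/-- the points `i`, `j` lie on a line -/
def c2 (i j : ℕ) : Bool := big.testBit (17 * i + j)

/-- incidence -/
def mk (i j : ℕ) : Bool := (masks.getD j 0).testBit i

theorem inc_spec : ∀ i j : Fin 17, ((i : ℕ) + 1 ∈ config j) ↔ mk i j = true := by
  decide +kernel

theorem c2_spec' : ∀ i j : Fin 17, c2 i j = (List.range 17).any fun l => mk i l && mk j l := by
  decide +kernel

theorem c2_spec (i j : Fin 17) : c2 i j = true ↔ ∃ l : Fin 17, mk i l = true ∧ mk j l = true := by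
  rw [c2_spec', List.any_eq_true]
  constructor
  · rintro ⟨l, h1, h2⟩
    rw [Bool.and_eq_true] at h2
    exact ⟨⟨l, List.mem_range.1 h1⟩, h2⟩
  · rintro ⟨l, h⟩
    exact ⟨l, List.mem_range.2 l.2, by rw [Bool.and_eq_true]; exact h⟩

/-- image of `i` in a list of pairs -/
def im (l : List (ℕ × ℕ)) (i : ℕ) : ℕ := (l.lookup i).getD 0

/-- the desired property of the list of all images -/
def leaf (l : List (ℕ × ℕ)) : Bool :=
  !((List.range 17).any fun j => mk (im l 7) j && mk (im l 12) j && mk (im l 16) j) ||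
  (im l 0 == 0 && im l 3 == 3 && im l 5 == 5 && im l 9 == 9 && im l 12 == 12) ||
  (im l (im l 0) == 0 && im l (im l 3) == 3 && im l (im l 5) == 5 && im l (im l 9) == 9 &&
    im l (im l 12) == 12 && im l (im l 1) != 1)

/-- all consistent extensions of the partial map `l` to the points in the first list have the
property `leaf` -/
def search : List ℕ → List (ℕ × ℕ) → Bool
  | [], l => leaf l
  | k :: ks, l => (List.range 17).all fun x =>
      !(l.all fun p => p.2 != x && (c2 p.1 k == c2 p.2 x)) || search ks ((k, x) :: l)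

/-- the order in which the images are chosen -/
def order : List ℕ := [15, 0, 14, 3, 4, 8, 6, 7, 9, 10, 2, 12, 1, 11, 5, 13, 16]

theorem search_order : search order [] = true := by decide +kernel

variable {s : ℕ → ℕ}

theorem search_sound (hlt : ∀ i, s i < 17) (hinj : ∀ i < 17, ∀ j < 17, s i = s j → i = j)
    (hc : ∀ i < 17, ∀ j < 17, c2 i j = c2 (s i) (s j)) :
    ∀ (ks : List ℕ) (l : List (ℕ × ℕ)), (∀ k ∈ ks, k < 17) → (∀ p ∈ l, p.1 < 17 ∧ p.2 = s p.1) →
      ks.Nodup → (∀ k ∈ ks, ∀ p ∈ l, p.1 ≠ k) →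
      search ks l = true → leaf ((ks.map fun k => (k, s k)).reverse ++ l) = true := by
  intro ks
  induction ks with
  | nil => intro l _ _ _ _ h; simpa [search] using h
  | cons k ks ih =>
    intro l hks hl hnd hne h
    have hk : k < 17 := hks k (by simp)
    unfold search at h
    rw [List.all_eq_true] at h
    have h1 := h (s k) (List.mem_range.2 (hlt k))
    have h2 : (l.all fun p => p.2 != s k && (c2 p.1 k == c2 p.2 (s k))) = true := by
      rw [List.all_eq_true]
      intro p hp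
      obtain ⟨hp1, hp2⟩ := hl p hp
      rw [Bool.and_eq_true, bne_iff_ne, beq_iff_eq, hp2]
      exact ⟨fun e => hne k (by simp) p hp (hinj _ hp1 _ hk e), hc _ hp1 _ hk⟩
    rw [h2, Bool.not_true, Bool.false_or] at h1
    have h3 := ih ((k, s k) :: l) (fun k' hk' => hks k' (List.mem_cons_of_mem _ hk')) (by
      intro p hp
      rcases List.mem_cons.1 hp with rfl | hp
      · exact ⟨hk, rfl⟩
      · exact hl p hp) (List.nodup_cons.1 hnd).2 (by
      intro k' hk' p hp
      rcases List.mem_cons.1 hp with rfl | hp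
      · intro e
        exact (List.nodup_cons.1 hnd).1 (by rw [show k = k' from e]; exact hk')
      · exact hne k' (List.mem_cons_of_mem _ hk') p hp) h1
    simpa using h3

variable {σ π : Fin 17 → Fin 17}

theorem c2_map (hπ : Function.Surjective π) (h : ∀ i j : Fin 17, mk i j = mk (σ i) (π j))
    (i j : Fin 17) : c2 i j = c2 (σ i) (σ j) := by
  rw [Bool.eq_iff_iff, c2_spec, c2_spec]
  constructor
  · rintro ⟨l, h1, h2⟩
    exact ⟨π l, by rw [← h]; exact h1, by rw [← h]; exact h2⟩
  · rintro ⟨l, h1, h2⟩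
    obtain ⟨l, rfl⟩ := hπ l
    exact ⟨l, by rw [h]; exact h1, by rw [h]; exact h2⟩

/-- Every automorphism of the configuration either fixes the points 1, 4, 6, 10, 13 or is of
order greater than two with a square which fixes them. -/
theorem aut (hσ : Function.Injective σ) (hπ : Function.Surjective π)
    (hinc : ∀ i j : Fin 17, ((i : ℕ) + 1 ∈ config j) ↔ ((σ i : ℕ) + 1 ∈ config (π j))) :
    (σ 0 = 0 ∧ σ 3 = 3 ∧ σ 5 = 5 ∧ σ 9 = 9 ∧ σ 12 = 12) ∨
    (σ (σ 0) = 0 ∧ σ (σ 3) = 3 ∧ σ (σ 5) = 5 ∧ σ (σ 9) = 9 ∧ σ (σ 12) = 12 ∧ σ (σ 1) ≠ 1) := by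
  have h : ∀ i j : Fin 17, mk i j = mk (σ i) (π j) := by
    intro i j
    rw [Bool.eq_iff_iff, ← inc_spec, ← inc_spec]
    exact hinc i j
  have hs : ∀ i : Fin 17, ((σ (Fin.ofNat 17 (i : ℕ)) : Fin 17) : ℕ) = (σ i : ℕ) := by
    intro i
    congr 2
    ext
    simp
  have key := search_sound (s := fun i => (σ (Fin.ofNat 17 i) : ℕ)) (fun i => (σ _).2)
    (by
      intro i hi j hj e
      have e1 := hσ (Fin.ext e)
      have e2 := congrArg Fin.val e1
      simpa [Nat.mod_eq_of_lt hi, Nat.mod_eq_of_lt hj] using e2)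
    (by
      intro i hi j hj
      have := c2_map hπ h (Fin.ofNat 17 i) (Fin.ofNat 17 j)
      simpa [Nat.mod_eq_of_lt hi, Nat.mod_eq_of_lt hj] using this)
    order [] (by decide) (by simp) (by decide) (by simp) search_order
  rw [List.append_nil] at key
  set L : List (ℕ × ℕ) := (order.map fun k => (k, ((σ (Fin.ofNat 17 k) : Fin 17) : ℕ))).reverse
    with hL
  have g : ∀ i : Fin 17, im L i = (σ i : ℕ) := by
    intro i
    fin_cases i <;> rfl
  have g' : ∀ i : Fin 17, im L (im L i) = (σ (σ i) : ℕ) := by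
    intro i
    rw [g i, g (σ i)]
  have hline : ((List.range 17).any fun j => mk (im L 7) j && mk (im L 12) j && mk (im L 16) j)
      = true := by
    rw [List.any_eq_true]
    refine ⟨π 13, List.mem_range.2 (π 13).2, ?_⟩
    have e7 : im L 7 = (σ 7 : ℕ) := g 7
    have e12 : im L 12 = (σ 12 : ℕ) := g 12
    have e16 : im L 16 = (σ 16 : ℕ) := g 16
    rw [e7, e12, e16, ← h, ← h, ← h]
    rfl
  unfold leaf at key
  rw [hline, Bool.not_true, Bool.false_or] at key
  have e0 : im L 0 = (σ 0 : ℕ) := g 0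
  have e3 : im L 3 = (σ 3 : ℕ) := g 3
  have e5 : im L 5 = (σ 5 : ℕ) := g 5
  have e9 : im L 9 = (σ 9 : ℕ) := g 9
  have e12 : im L 12 = (σ 12 : ℕ) := g 12
  have f0 : im L (im L 0) = (σ (σ 0) : ℕ) := g' 0
  have f1 : im L (im L 1) = (σ (σ 1) : ℕ) := g' 1
  have f3 : im L (im L 3) = (σ (σ 3) : ℕ) := g' 3
  have f5 : im L (im L 5) = (σ (σ 5) : ℕ) := g' 5
  have f9 : im L (im L 9) = (σ (σ 9) : ℕ) := g' 9
  have f12 : im L (im L 12) = (σ (σ 12) : ℕ) := g' 12
  rw [f0, f1, f3, f5, f9, f12, e0, e3, e5, e9, e12] at key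
  simp only [Bool.or_eq_true, Bool.and_eq_true, beq_iff_eq, bne_iff_ne] at key
  rcases key with ⟨⟨⟨⟨h0, h3⟩, h5⟩, h9⟩, h12⟩ | ⟨⟨⟨⟨⟨h0, h3⟩, h5⟩, h9⟩, h12⟩, h1⟩
  · left
    exact ⟨Fin.ext h0, Fin.ext h3, Fin.ext h5, Fin.ext h9, Fin.ext h12⟩
  · right
    exact ⟨Fin.ext h0, Fin.ext h3, Fin.ext h5, Fin.ext h9, Fin.ext h12,
      fun e => h1 (congrArg Fin.val e)⟩

end Pool.Agent.N396.C17.Aut
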