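import Mathlib

/-! Two facts on the circle: an involution with three fixed points is the identity, and the
circle does not embed in the line. -/

open Set Function

namespace Pool.Agent.N396.C17.Circ

/-- A continuous involution of `AddCircle 1` with three distinct fixed points is the identity. -/
theorem invol_add (f : AddCircle (1:ℝ) → AddCircle (1:ℝ)) (hf : Continuous f)
    (hi : ∀ x, f (f x) = x) (a b c : AddCircle (1:ℝ)) (ha : f a = a) (hb : f b = b) (hc : f c = c)
    (hab : a ≠ b) (hac : a ≠ c) (hbc : b ≠ c) : ∀ x, f x = x := by
  have finj : Injective f := fun x y h => by rw [← hi x, h, hi y]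
  induction a using QuotientAddGroup.induction_on with
  | H a =>
  set e := AddCircle.openPartialHomeomorphCoe (1:ℝ) a with he
  have hsrc : e.source = Ioo a (a + 1) := rfl
  have htgt : e.target = {(a : AddCircle (1:ℝ))}ᶜ := rfl
  have hmaps : ∀ x ∈ e.target, f x ∈ e.target := by
    intro x hx h
    apply hx
    have h1 : f x = f (a : AddCircle (1:ℝ)) := by rw [ha]; exact h
    exact finj h1
  set g : ℝ → ℝ := fun t => e.symm (f (e t)) with hg
  have hgmaps : ∀ t ∈ e.source, g t ∈ e.source := fun t ht =>
    e.map_target (hmaps _ (e.map_source ht))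
  have hgg : ∀ t ∈ e.source, g (g t) = t := by
    intro t ht
    simp only [hg]
    rw [e.right_inv (hmaps _ (e.map_source ht)), hi, e.left_inv ht]
  have hginj : InjOn g (Ioo a (a + 1)) := by
    intro x hx y hy h
    rw [← hgg x hx, h, hgg y hy]
  have hgcont : ContinuousOn g (Ioo a (a + 1)) := by
    have h1 : ContinuousOn (fun t => f (e t)) e.source :=
      hf.comp_continuousOn e.continuousOn
    exact e.symm.continuousOn.comp h1 (fun t ht => hmaps _ (e.map_source ht))
  -- the two other fixed points
  have fixpt : ∀ y : AddCircle (1:ℝ), (a : AddCircle (1:ℝ)) ≠ y → f y = y →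
      e.symm y ∈ Ioo a (a+1) ∧ g (e.symm y) = e.symm y := by
    intro y hy hfy
    have hyt : y ∈ e.target := fun h => hy h.symm
    refine ⟨e.map_target hyt, ?_⟩
    simp only [hg]
    rw [e.right_inv hyt, hfy]
  obtain ⟨hb1, hb2⟩ := fixpt b hab hb
  obtain ⟨hc1, hc2⟩ := fixpt c hac hc
  have hbc' : e.symm b ≠ e.symm c := by
    intro h
    apply hbc
    have hbt : b ∈ e.target := fun h => hab h.symm
    have hct : c ∈ e.target := fun h => hac h.symm
    rw [← e.right_inv hbt, h, e.right_inv hct]
  have hmono : StrictMonoOn g (Ioo a (a+1)) := by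
    rcases ContinuousOn.strictMonoOn_of_injOn_Ioo (by linarith) hgcont hginj with h | h
    · exact h
    · exfalso
      rcases lt_or_gt_of_ne hbc' with h1 | h1
      · have := h hb1 hc1 h1
        rw [hb2, hc2] at this
        exact lt_asymm h1 this
      · have := h hc1 hb1 h1
        rw [hb2, hc2] at this
        exact lt_asymm h1 this
  have hgid : ∀ t ∈ Ioo a (a+1), g t = t := by
    intro t ht
    rcases lt_trichotomy (g t) t with h | h | h
    · have := hmono (hgmaps t ht) ht h
      rw [hgg t ht] at this
      exact absurd this (lt_asymm h)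
    · exact h
    · have := hmono ht (hgmaps t ht) h
      rw [hgg t ht] at this
      exact absurd this (lt_asymm h)
  intro x
  by_cases hx : x = (a : AddCircle (1:ℝ))
  · rw [hx]; exact ha
  · have hxt : x ∈ e.target := hx
    have h1 := hgid (e.symm x) (e.map_target hxt)
    simp only [hg] at h1
    rw [e.right_inv hxt] at h1
    have h2 := congrArg e h1
    rwa [e.right_inv (hmaps x hxt), e.right_inv hxt] at h2

/-- A continuous involution of the circle with three distinct fixed points is the identity. -/
theorem invol (f : Circle → Circle) (hf : Continuous f)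
    (hi : ∀ x, f (f x) = x) (a b c : Circle) (ha : f a = a) (hb : f b = b) (hc : f c = c)
    (hab : a ≠ b) (hac : a ≠ c) (hbc : b ≠ c) : ∀ x, f x = x := by
  let h := AddCircle.homeomorphCircle (T := (1:ℝ)) one_ne_zero
  have key := invol_add (fun x => h.symm (f (h x)))
    (h.symm.continuous.comp (hf.comp h.continuous)) (fun x => by simp [hi])
    (h.symm a) (h.symm b) (h.symm c) (by simp [ha]) (by simp [hb]) (by simp [hc])
    (fun e => hab (h.symm.injective e)) (fun e => hac (h.symm.injective e))
    (fun e => hbc (h.symm.injective e))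
  intro x
  have := key (h.symm x)
  simp only [Homeomorph.apply_symm_apply] at this
  exact h.symm.injective this

/-- There is no continuous injection of the circle into the line. -/
theorem not_inj (f : Circle → ℝ) (hf : Continuous f) : ¬ Injective f := by
  intro hinj
  have hneg : ∀ z : Circle, -z ≠ z := by
    intro z h
    have h1 : ((-z : Circle) : ℂ) = (z : ℂ) := by rw [h]
    rw [Circle.coe_neg] at h1
    have h2 : (z : ℂ) = 0 := by linear_combination (-1/2 : ℂ) * h1
    exact z.coe_ne_zero h2
  have hd : Continuous (fun z : Circle => f (-z) - f z) := by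
    refine (hf.comp ?_).sub hf
    exact continuous_neg
  set d := fun z : Circle => f (-z) - f z with hd'
  have h1 : d (-1) = - d 1 := by simp [hd']
  have : ∃ z, d z = 0 := by
    rcases le_total (d 1) 0 with h | h
    · exact mem_range_of_exists_le_of_exists_ge hd ⟨1, h⟩ ⟨-1, by rw [h1]; linarith⟩
    · exact mem_range_of_exists_le_of_exists_ge hd ⟨-1, by rw [h1]; linarith⟩ ⟨1, h⟩
  obtain ⟨z, hz⟩ := this
  exact hneg z (hinj (by simp only [hd'] at hz; linarith))

end Pool.Agent.N396.C17.Circ
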