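import Mathlib
import Pool.Agent.N396.C17.Defs
import Pool.Agent.N396.C17.Circ

/-! Reflections of the projective plane and simple closed curves invariant under them. -/

open scoped LinearAlgebra.Projectivization
open Set Function

namespace Pool.Agent.N396.C17

/-- The linear map `(x, t) ↦ (A x + t b, t)`, where `x ↦ A x + b` is the isometry `T`. -/
noncomputable def extendLin (T : Plane ≃ᵃⁱ[ℝ] Plane) : (Plane × ℝ) →ₗ[ℝ] (Plane × ℝ) where
  toFun v := (T.linearIsometryEquiv v.1 + v.2 • T 0, v.2)
  map_add' v w := by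
    ext1
    · simp only [Prod.fst_add, Prod.snd_add, map_add, add_smul]; abel
    · simp
  map_smul' c v := by
    ext1
    · simp only [Prod.smul_fst, Prod.smul_snd, map_smul, smul_add, smul_assoc, RingHom.id_apply]
    · simp

theorem extendLin_injective (T : Plane ≃ᵃⁱ[ℝ] Plane) : Function.Injective (extendLin T) := by
  rintro ⟨x, s⟩ ⟨y, t⟩ h
  simp only [extendLin, LinearMap.coe_mk, AddHom.coe_mk, Prod.mk.injEq] at h
  obtain ⟨h1, rfl⟩ := h
  simpa using h1

/-- The extension `[x : t] ↦ [A x + t b : t]` to the projective plane of the isometry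
`T : x ↦ A x + b` of the Euclidean plane. -/
noncomputable def extend (T : Plane ≃ᵃⁱ[ℝ] Plane) : RP2 → RP2 :=
  Projectivization.map (extendLin T) (extendLin_injective T)

theorem extendLin_apply (T : Plane ≃ᵃⁱ[ℝ] Plane) (x : Plane) (t : ℝ) :
    extendLin T (x, t) = (T.linearIsometryEquiv x + t • T 0, t) := rfl

theorem map_eq (T : Plane ≃ᵃⁱ[ℝ] Plane) (x : Plane) : T x = T.linearIsometryEquiv x + T 0 := by
  have := T.map_vadd 0 x
  simpa using this

theorem extend_mk (T : Plane ≃ᵃⁱ[ℝ] Plane) (v : Plane × ℝ) (hv : v ≠ 0) :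
    extend T (Projectivization.mk ℝ v hv) =
      Projectivization.mk ℝ (extendLin T v)
        (fun h => hv (extendLin_injective T (h.trans (map_zero _).symm))) := rfl

theorem extend_toRP2 (T : Plane ≃ᵃⁱ[ℝ] Plane) (x : Plane) : extend T (toRP2 x) = toRP2 (T x) := by
  unfold toRP2
  rw [extend_mk]
  congr 1
  rw [extendLin_apply, one_smul, ← map_eq]

theorem extend_injective (T : Plane ≃ᵃⁱ[ℝ] Plane) : Injective (extend T) :=
  Projectivization.map_injective (τ := RingHom.id ℝ) _ _

theorem toRP2_injective : Injective toRP2 := by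
  intro x y h
  unfold toRP2 at h
  rw [Projectivization.mk_eq_mk_iff'] at h
  obtain ⟨a, ha⟩ := h
  simp only [Prod.smul_mk, smul_eq_mul, mul_one, Prod.mk.injEq] at ha
  obtain ⟨h1, rfl⟩ := ha
  simpa using h1.symm

theorem isQuot : Topology.IsQuotientMap
    (Projectivization.mk' ℝ : {v : Plane × ℝ // v ≠ 0} → RP2) :=
  ⟨⟨rfl⟩, Quotient.mk''_surjective⟩

theorem continuous_extend (T : Plane ≃ᵃⁱ[ℝ] Plane) : Continuous (extend T) := by
  rw [isQuot.continuous_iff]
  have h : (extend T ∘ Projectivization.mk' ℝ : {v : Plane × ℝ // v ≠ 0} → RP2) =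
      Projectivization.mk' ℝ ∘ fun v => ⟨extendLin T v.1,
        (fun h => v.2 (extendLin_injective T (h.trans (map_zero _).symm)))⟩ := by
    ext v
    rfl
  rw [h]
  refine isQuot.continuous.comp ?_
  refine Continuous.subtype_mk ?_ _
  have : Continuous (extendLin T) := LinearMap.continuous_of_finiteDimensional _
  exact this.comp continuous_subtype_val

theorem extend_trans (S T : Plane ≃ᵃⁱ[ℝ] Plane) (p : RP2) :
    extend (S.trans T) p = extend T (extend S p) := by
  induction p using Projectivization.ind with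
  | h v hv =>
  rw [extend_mk, extend_mk, extend_mk]
  congr 1
  obtain ⟨x, t⟩ := v
  simp only [extendLin_apply, Prod.mk.injEq, and_true]
  have h1 : (S.trans T) 0 = T (S 0) := rfl
  have h2 : (S.trans T).linearIsometryEquiv x = T.linearIsometryEquiv (S.linearIsometryEquiv x) :=
    rfl
  rw [h1, h2, map_eq T (S 0), map_add, map_smul, smul_add]
  abel

/-- continuous function on the projective plane -/
noncomputable def K (c e1 e2 : Plane) (v : Plane × ℝ) : ℝ :=
  (inner ℝ (v.1 - v.2 • c) e1) ^ 2 /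
    ((inner ℝ (v.1 - v.2 • c) e1) ^ 2 + (inner ℝ (v.1 - v.2 • c) e2) ^ 2 + v.2 ^ 2)

/-- the rotated vector -/
noncomputable def rot (u : Plane) : Plane := !₂[-u 1, u 0]

theorem inner_eq (x y : Plane) : inner ℝ x y = x 0 * y 0 + x 1 * y 1 := by
  simp [PiLp.inner_apply, Fin.sum_univ_two, mul_comm]

theorem inner_rot_self (u : Plane) : inner ℝ (rot u) u = 0 := by
  rw [inner_eq]; simp [rot]; ring

/-- a vector orthogonal to `u` and `rot u` is zero -/
theorem eq_zero_of_inner {u x : Plane} (hu : u ≠ 0) (h1 : inner ℝ x u = 0)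
    (h2 : inner ℝ x (rot u) = 0) : x = 0 := by
  rw [inner_eq] at h1 h2
  simp only [rot] at h2
  simp at h2
  have hn : u 0 ^ 2 + u 1 ^ 2 ≠ 0 := by
    intro h
    apply hu
    ext i
    fin_cases i
    · simp; nlinarith [sq_nonneg (u 0), sq_nonneg (u 1)]
    · simp; nlinarith [sq_nonneg (u 0), sq_nonneg (u 1)]
  ext i
  fin_cases i
  · simp
    have : x 0 * (u 0 ^ 2 + u 1 ^ 2) = 0 := by linear_combination u 0 * h1 - u 1 * h2
    rcases mul_eq_zero.1 this with h | h
    · exact h
    · exact absurd h hn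
  · simp
    have : x 1 * (u 0 ^ 2 + u 1 ^ 2) = 0 := by linear_combination u 1 * h1 + u 0 * h2
    rcases mul_eq_zero.1 this with h | h
    · exact h
    · exact absurd h hn

theorem den_pos {u : Plane} (hu : u ≠ 0) (c : Plane) {v : Plane × ℝ} (hv : v ≠ 0) :
    0 < (inner ℝ (v.1 - v.2 • c) u) ^ 2 + (inner ℝ (v.1 - v.2 • c) (rot u)) ^ 2 + v.2 ^ 2 := by
  by_contra h
  push Not at h
  have h1 := sq_nonneg (inner ℝ (v.1 - v.2 • c) u)
  have h2 := sq_nonneg (inner ℝ (v.1 - v.2 • c) (rot u))
  have h3 := sq_nonneg v.2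
  have e1 : inner ℝ (v.1 - v.2 • c) u = 0 := by
    rw [← sq_eq_zero_iff]; linarith
  have e2 : inner ℝ (v.1 - v.2 • c) (rot u) = 0 := by
    rw [← sq_eq_zero_iff]; linarith
  have e3 : v.2 = 0 := by
    rw [← sq_eq_zero_iff]; linarith
  apply hv
  have := eq_zero_of_inner hu e1 e2
  rw [e3, zero_smul, sub_zero] at this
  exact Prod.ext this e3

theorem K_smul (c e1 e2 : Plane) (v : Plane × ℝ) {a : ℝ} (ha : a ≠ 0) :
    K c e1 e2 (a • v) = K c e1 e2 v := by
  unfold K
  have h : (a • v).1 - (a • v).2 • c = a • (v.1 - v.2 • c) := by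
    rw [Prod.smul_fst, Prod.smul_snd, smul_sub, smul_assoc]
  rw [h, inner_smul_left, inner_smul_left, Prod.smul_snd]
  simp only [smul_eq_mul, mul_pow, conj_trivial]
  rw [← mul_add, ← mul_add, mul_div_mul_left _ _ (pow_ne_zero 2 ha)]

/-- the function `K` on the projective plane -/
noncomputable def KP (c e1 e2 : Plane) : RP2 → ℝ :=
  Projectivization.lift (fun v => K c e1 e2 v.1) (by
    intro a b t h
    have ht : t ≠ 0 := by
      rintro rfl
      exact a.2 (by rw [h, zero_smul])
    rw [h, K_smul _ _ _ _ ht])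

theorem KP_mk (c e1 e2 : Plane) (v : Plane × ℝ) (hv : v ≠ 0) :
    KP c e1 e2 (Projectivization.mk ℝ v hv) = K c e1 e2 v := rfl

theorem continuous_KP {c e1 e2 : Plane}
    (h : ∀ v : Plane × ℝ, v ≠ 0 →
      (inner ℝ (v.1 - v.2 • c) e1) ^ 2 + (inner ℝ (v.1 - v.2 • c) e2) ^ 2 + v.2 ^ 2 ≠ 0) :
    Continuous (KP c e1 e2) := by
  rw [isQuot.continuous_iff]
  have e : (KP c e1 e2 ∘ Projectivization.mk' ℝ : {v : Plane × ℝ // v ≠ 0} → ℝ) =
      fun v => K c e1 e2 v.1 := rfl
  rw [e]
  unfold K
  refine Continuous.div ?_ ?_ (fun v => h v.1 v.2)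
  · fun_prop
  · fun_prop

/-- the slope function, with values `t / ⟪x - t c, u⟫` -/
noncomputable def HP (c u : Plane) : RP2 → ℝ :=
  Projectivization.lift (fun v => v.1.2 / inner ℝ (v.1.1 - v.1.2 • c) u) (by
    intro a b t h
    have ht : t ≠ 0 := by
      rintro rfl
      exact a.2 (by rw [h, zero_smul])
    have h2 : (t • b.1).1 - (t • b.1).2 • c = t • (b.1.1 - b.1.2 • c) := by
      rw [Prod.smul_fst, Prod.smul_snd, smul_sub, smul_assoc]
    rw [h, h2, inner_smul_left, Prod.smul_snd, smul_eq_mul, conj_trivial,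
      mul_div_mul_left _ _ ht])

theorem HP_mk (c u : Plane) (v : Plane × ℝ) (hv : v ≠ 0) :
    HP c u (Projectivization.mk ℝ v hv) = v.2 / inner ℝ (v.1 - v.2 • c) u := rfl

theorem continuousOn_HP {c u : Plane} (hu : u ≠ 0) :
    ContinuousOn (HP c u) {p | KP c u (rot u) p ≠ 0} := by
  have hopen : IsOpen {p | KP c u (rot u) p ≠ 0} :=
    isOpen_ne_fun (continuous_KP fun v hv => (den_pos hu c hv).ne') continuous_const
  rw [isQuot.continuousOn_isOpen_iff hopen]
  have e : (HP c u ∘ Projectivization.mk' ℝ : {v : Plane × ℝ // v ≠ 0} → ℝ) =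
      fun v => v.1.2 / inner ℝ (v.1.1 - v.1.2 • c) u := rfl
  rw [e]
  refine ContinuousOn.div (by fun_prop) (by fun_prop) ?_
  rintro v hv h0
  apply hv
  show K c u (rot u) v.1 = 0
  unfold K
  rw [h0]
  simp

/-- A nontrivial isometry with two fixed points: its linear part fixes the direction `u` of the
line through them and reverses the orthogonal direction. -/
theorem reflection {T : Plane ≃ᵃⁱ[ℝ] Plane} (hT : T ≠ AffineIsometryEquiv.refl ℝ Plane)
    {a b : Plane} (ha : T a = a) (hb : T b = b) (hab : a ≠ b) :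
    T.linearIsometryEquiv (b - a) = b - a ∧
      T.linearIsometryEquiv (rot (b - a)) = - rot (b - a) := by
  set A := T.linearIsometryEquiv with hA
  set u := b - a with hu
  have hu0 : u ≠ 0 := sub_ne_zero.2 hab.symm
  have h1 : A u = u := by
    have ea := map_eq T a
    have eb := map_eq T b
    rw [ha] at ea; rw [hb] at eb
    rw [hu, map_sub]
    calc A b - A a = (A b + T 0) - (A a + T 0) := by abel
      _ = b - a := by rw [hA, ← eb, ← ea]
  refine ⟨h1, ?_⟩
  set n := rot u with hn
  have hnu : inner ℝ (A n) u = 0 := by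
    rw [← h1, A.inner_map_map]; exact inner_rot_self u
  have hnn : inner ℝ (A n) (A n) = inner ℝ n n := A.inner_map_map n n
  have hN : u 0 ^ 2 + u 1 ^ 2 ≠ 0 := by
    intro h
    apply hu0
    ext i
    fin_cases i
    · simp; nlinarith [sq_nonneg (u 0), sq_nonneg (u 1)]
    · simp; nlinarith [sq_nonneg (u 0), sq_nonneg (u 1)]
  -- `A n = c n`
  set c : ℝ := inner ℝ (A n) n / (u 0 ^ 2 + u 1 ^ 2) with hc
  have hcn : A n = c • n := by
    rw [← sub_eq_zero]
    apply eq_zero_of_inner hu0
    · rw [inner_sub_left, inner_smul_left, hnu, hn, inner_rot_self]; simp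
    · rw [inner_sub_left, inner_smul_left, ← hn]
      have : inner ℝ n n = u 0 ^ 2 + u 1 ^ 2 := by
        rw [inner_eq, hn]; simp [rot]; ring
      rw [this, hc]
      simp only [conj_trivial]
      field_simp
      ring
  have hc2 : c ^ 2 = 1 := by
    have hpos : inner ℝ n n ≠ 0 := by
      have : inner ℝ n n = u 0 ^ 2 + u 1 ^ 2 := by
        rw [inner_eq, hn]; simp [rot]; ring
      rw [this]; exact hN
    rw [hcn, inner_smul_left, inner_smul_right] at hnn
    simp only [conj_trivial] at hnn
    have : (c ^ 2 - 1) * inner ℝ n n = 0 := by linear_combination hnn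
    rcases mul_eq_zero.1 this with h | h
    · linarith
    · exact absurd h hpos
  have hc3 : (c - 1) * (c + 1) = 0 := by linear_combination hc2
  rcases mul_eq_zero.1 hc3 with h | h
  · exfalso
    apply hT
    have hAn : A n = n := by
      have : c = 1 := by linarith
      rw [hcn, this, one_smul]
    have hAx : ∀ x, A x = x := by
      intro x
      rw [← sub_eq_zero]
      apply eq_zero_of_inner hu0
      · rw [inner_sub_left]
        nth_rewrite 1 [← h1]
        rw [A.inner_map_map, sub_self]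
      · rw [inner_sub_left, ← hn]
        nth_rewrite 1 [← hAn]
        rw [A.inner_map_map, sub_self]
    have h0 : T 0 = 0 := by
      have := map_eq T a
      rw [ha, ← hA, hAx] at this
      simpa using this
    ext1 x
    rw [map_eq T x, ← hA, hAx, h0, add_zero]
    rfl
  · have : c = -1 := by linarith
    rw [hcn, this, neg_one_smul]

/-- the data of a reflection in the line through `a` in the direction `u` -/
structure IsRefl (T : Plane ≃ᵃⁱ[ℝ] Plane) (a u : Plane) : Prop where
  ne : u ≠ 0
  fix : T a = a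
  h1 : T.linearIsometryEquiv u = u
  h2 : T.linearIsometryEquiv (rot u) = - rot u

theorem IsRefl.move {T : Plane ≃ᵃⁱ[ℝ] Plane} {a u : Plane} (h : IsRefl T a u) (x : Plane)
    (t : ℝ) : (T.linearIsometryEquiv x + t • T 0) - t • a = T.linearIsometryEquiv (x - t • a) := by
  have ea := map_eq T a
  rw [h.fix] at ea
  have h0 : T 0 = a - T.linearIsometryEquiv a := by
    rw [eq_sub_iff_add_eq, add_comm]; exact ea.symm
  rw [h0, map_sub, map_smul, smul_sub]
  abel

theorem IsRefl.inner_u {T : Plane ≃ᵃⁱ[ℝ] Plane} {a u : Plane} (h : IsRefl T a u) (y : Plane) :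
    inner ℝ (T.linearIsometryEquiv y) u = inner ℝ y u := by
  nth_rewrite 1 [← h.h1]
  rw [LinearIsometryEquiv.inner_map_map]

theorem IsRefl.inner_rot {T : Plane ≃ᵃⁱ[ℝ] Plane} {a u : Plane} (h : IsRefl T a u) (y : Plane) :
    inner ℝ (T.linearIsometryEquiv y) (rot u) = - inner ℝ y (rot u) := by
  have : inner ℝ (T.linearIsometryEquiv y) (- rot u) = inner ℝ y (rot u) := by
    rw [← h.h2, LinearIsometryEquiv.inner_map_map]
  rw [inner_neg_right] at this
  linarith

theorem IsRefl.invol {T : Plane ≃ᵃⁱ[ℝ] Plane} {a u : Plane} (h : IsRefl T a u) (p : RP2) :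
    extend T (extend T p) = p := by
  induction p using Projectivization.ind with
  | h v hv =>
  rw [extend_mk, extend_mk]
  congr 1
  obtain ⟨x, t⟩ := v
  simp only [extendLin_apply, Prod.mk.injEq, and_true]
  set A := T.linearIsometryEquiv with hA
  have e1 := h.move (A x + t • T 0) t
  have e2 := h.move x t
  rw [← hA] at e1 e2
  rw [e2] at e1
  have e3 : A (A (x - t • a)) = x - t • a := by
    rw [← sub_eq_zero]
    apply eq_zero_of_inner h.ne
    · rw [inner_sub_left, h.inner_u, h.inner_u, sub_self]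
    · rw [inner_sub_left, h.inner_rot, h.inner_rot, neg_neg, sub_self]
  rw [e3, sub_left_inj] at e1
  exact e1

theorem IsRefl.fixed {T : Plane ≃ᵃⁱ[ℝ] Plane} {a u : Plane} (h : IsRefl T a u) {v : Plane × ℝ}
    (hv : v ≠ 0) (hf : extend T (Projectivization.mk ℝ v hv) = Projectivization.mk ℝ v hv) :
    inner ℝ (v.1 - v.2 • a) (rot u) = 0 ∨ (v.2 = 0 ∧ inner ℝ (v.1 - v.2 • a) u = 0) := by
  rw [extend_mk, Projectivization.mk_eq_mk_iff'] at hf
  obtain ⟨c, hc⟩ := hf
  obtain ⟨x, t⟩ := v
  rw [extendLin_apply, Prod.smul_mk, Prod.mk.injEq] at hc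
  obtain ⟨hc1, hc2⟩ := hc
  simp only
  have hm : c • (x - t • a) = T.linearIsometryEquiv (x - t • a) := by
    rw [← h.move, ← hc1, smul_sub, ← smul_assoc, hc2]
  by_cases ht : t = 0
  · by_cases hy : inner ℝ (x - t • a) (rot u) = 0
    · exact Or.inl hy
    · right
      refine ⟨ht, ?_⟩
      have e1 : c * inner ℝ (x - t • a) (rot u) = - inner ℝ (x - t • a) (rot u) := by
        rw [← h.inner_rot, ← hm, inner_smul_left]; rfl
      have e2 : c * inner ℝ (x - t • a) u = inner ℝ (x - t • a) u := by
        calc c * inner ℝ (x - t • a) u = inner ℝ (c • (x - t • a)) u := by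
              rw [inner_smul_left]; rfl
          _ = inner ℝ (T.linearIsometryEquiv (x - t • a)) u := by rw [hm]
          _ = _ := h.inner_u _
      have hc : c = -1 := by
        have : (c + 1) * inner ℝ (x - t • a) (rot u) = 0 := by linear_combination e1
        rcases mul_eq_zero.1 this with h | h
        · linarith
        · exact absurd h hy
      rw [hc] at e2
      linarith
  · left
    have hc : c = 1 := by
      rw [smul_eq_mul] at hc2
      have : (c - 1) * t = 0 := by linear_combination hc2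
      rcases mul_eq_zero.1 this with h | h
      · linarith
      · exact absurd h ht
    rw [hc, one_smul] at hm
    have := h.inner_rot (x - t • a)
    rw [← hm] at this
    linarith

/-- A simple closed curve invariant under the reflection which contains three points fixed by
the reflection contains every fixed point of the Euclidean plane. -/
theorem IsRefl.mem {T : Plane ≃ᵃⁱ[ℝ] Plane} {a u : Plane} (h : IsRefl T a u) {L : Set RP2}
    (γ : C(Circle, RP2)) (hγ : Topology.IsEmbedding γ) (hL : Set.range γ = L)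
    (hinv : extend T '' L = L) {p q r : RP2} (hp : p ∈ L) (hq : q ∈ L) (hr : r ∈ L)
    (hpf : extend T p = p) (hqf : extend T q = q) (hrf : extend T r = r) (hpq : p ≠ q)
    (hpr : p ≠ r) (hqr : q ≠ r) (haL : toRP2 a ∈ L) {c : Plane} (hc : T c = c) :
    toRP2 c ∈ L := by
  by_contra hcL
  -- the involution of the circle
  have hmem : ∀ z, extend T (γ z) ∈ Set.range γ := by
    intro z
    rw [hL, ← hinv]
    exact ⟨γ z, by rw [← hL]; exact ⟨z, rfl⟩, rfl⟩
  let e := hγ.toHomeomorph
  have he : ∀ z, ((e z : Set.range γ) : RP2) = γ z := fun z => rfl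
  have he' : ∀ w : Set.range γ, γ (e.symm w) = w := by
    intro w
    rw [← he, e.apply_symm_apply]
  let f : Circle → Circle := fun z => e.symm ⟨extend T (γ z), hmem z⟩
  have hfγ : ∀ z, γ (f z) = extend T (γ z) := fun z => he' _
  have hfc : Continuous f := by
    refine e.symm.continuous.comp ?_
    exact Continuous.subtype_mk ((continuous_extend T).comp γ.continuous) _
  have hff : ∀ z, f (f z) = z := by
    intro z
    apply hγ.injective
    rw [hfγ, hfγ, h.invol]
  have hfix : ∀ s ∈ L, extend T s = s → ∃ z, γ z = s ∧ f z = z := by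
    intro s hs hsf
    rw [← hL] at hs
    obtain ⟨z, rfl⟩ := hs
    exact ⟨z, rfl, hγ.injective (by rw [hfγ, hsf])⟩
  obtain ⟨zp, hzp, hzpf⟩ := hfix p hp hpf
  obtain ⟨zq, hzq, hzqf⟩ := hfix q hq hqf
  obtain ⟨zr, hzr, hzrf⟩ := hfix r hr hrf
  have hid := Circ.invol f hfc hff zp zq zr hzpf hzqf hzrf
    (fun e => hpq (by rw [← hzp, ← hzq, e])) (fun e => hpr (by rw [← hzp, ← hzr, e]))
    (fun e => hqr (by rw [← hzq, ← hzr, e]))
  have hFix : ∀ z, extend T (γ z) = γ z := fun z => by rw [← hfγ, hid]
  -- all points of the curve lie on the mirror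
  have hrep : ∀ z, ∃ (v : Plane × ℝ) (hv : v ≠ 0), γ z = Projectivization.mk ℝ v hv :=
    fun z => ⟨(γ z).rep, (γ z).rep_nonzero, (Projectivization.mk_rep _).symm⟩
  have hcontK : Continuous (KP a (rot u) u) := continuous_KP fun v hv => by
    have := den_pos h.ne a hv
    rw [add_comm ((inner ℝ (v.1 - v.2 • a) (rot u)) ^ 2)]
    exact this.ne'
  have hK01 : ∀ z, KP a (rot u) u (γ z) = 0 ∨ KP a (rot u) u (γ z) = 1 := by
    intro z
    obtain ⟨v, hv, hz⟩ := hrep z
    have hf := hFix z
    rw [hz] at hf ⊢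
    rw [KP_mk]
    unfold K
    rcases h.fixed hv hf with h1 | ⟨h1, h2⟩
    · left; rw [h1]; simp
    · by_cases h3 : inner ℝ (v.1 - v.2 • a) (rot u) = 0
      · left; rw [h3]; simp
      · right
        rw [h1] at h2 h3 ⊢
        rw [h2]
        have : (inner ℝ (v.1 - (0:ℝ) • a) (rot u)) ^ 2 ≠ 0 := pow_ne_zero 2 h3
        simp only [ne_eq, OfNat.ofNat_ne_zero, not_false_eq_true, zero_pow, add_zero]
        exact div_self this
  have hK0 : ∀ z, KP a (rot u) u (γ z) = 0 := by
    intro z
    by_contra hne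
    have h1 := (hK01 z).resolve_left hne
    rw [← hL] at haL
    obtain ⟨za, hza⟩ := haL
    have h0 : KP a (rot u) u (γ za) = 0 := by
      rw [hza]
      unfold toRP2
      rw [KP_mk]
      unfold K
      simp
    have hcont : Continuous fun z => KP a (rot u) u (γ z) := hcontK.comp γ.continuous
    obtain ⟨w, hw⟩ := mem_range_of_exists_le_of_exists_ge (c := (1/2 : ℝ)) hcont
      ⟨za, by simp only [h0]; norm_num⟩ ⟨z, by simp only [h1]; norm_num⟩
    have hw' : KP a (rot u) u (γ w) = 1 / 2 := hw
    rcases hK01 w with h | h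
    · rw [h] at hw'; norm_num at hw'
    · rw [h] at hw'; norm_num at hw'
  have hac : inner ℝ (c - a) (rot u) = 0 := by
    have e1 := h.move c 1
    rw [one_smul, ← map_eq, hc, one_smul] at e1
    have e2 := h.inner_rot (c - a)
    rw [← e1] at e2
    linarith
  have hperp : ∀ (v : Plane × ℝ) (hv : v ≠ 0) (z), γ z = Projectivization.mk ℝ v hv →
      inner ℝ (v.1 - v.2 • c) (rot u) = 0 := by
    intro v hv z hz
    have h1 := hK0 z
    rw [hz, KP_mk] at h1
    unfold K at h1
    have hd := den_pos h.ne a hv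
    rw [div_eq_zero_iff] at h1
    rcases h1 with h1 | h1
    · have h2 : inner ℝ (v.1 - v.2 • a) (rot u) = 0 := by
        rwa [sq_eq_zero_iff] at h1
      have h3 : v.1 - v.2 • c = (v.1 - v.2 • a) - v.2 • (c - a) := by
        rw [smul_sub]; abel
      rw [h3, inner_sub_left, inner_smul_left, h2, hac]
      simp
    · exfalso; linarith
  have hne0 : ∀ (v : Plane × ℝ) (hv : v ≠ 0) (z), γ z = Projectivization.mk ℝ v hv →
      inner ℝ (v.1 - v.2 • c) u ≠ 0 := by
    intro v hv z hz h0
    have h1 := eq_zero_of_inner h.ne h0 (hperp v hv z hz)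
    apply hcL
    rw [← hL]
    refine ⟨z, ?_⟩
    rw [hz]
    unfold toRP2
    rw [Projectivization.mk_eq_mk_iff']
    refine ⟨v.2, ?_⟩
    rw [Prod.smul_mk, smul_eq_mul, mul_one]
    rw [sub_eq_zero] at h1
    rw [← h1]
  -- the slope is a continuous injection into the line
  refine Circ.not_inj (fun z => HP c u (γ z)) ?_ ?_
  · rw [continuous_iff_continuousAt]
    intro z
    have hz : γ z ∈ {p | KP c u (rot u) p ≠ 0} := by
      obtain ⟨v, hv, hz⟩ := hrep z
      show KP c u (rot u) (γ z) ≠ 0
      rw [hz, KP_mk]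
      unfold K
      exact div_ne_zero (pow_ne_zero 2 (hne0 v hv z hz)) (den_pos h.ne c hv).ne'
    have hopen : IsOpen {p | KP c u (rot u) p ≠ 0} :=
      isOpen_ne_fun (continuous_KP fun v hv => (den_pos h.ne c hv).ne') continuous_const
    exact ((continuousOn_HP h.ne).continuousAt (hopen.mem_nhds hz)).comp γ.continuous.continuousAt
  · intro z w hzw
    apply hγ.injective
    obtain ⟨v, hv, hz⟩ := hrep z
    obtain ⟨v', hv', hw⟩ := hrep w
    have hzw' : HP c u (γ z) = HP c u (γ w) := hzw
    rw [hz, hw, HP_mk, HP_mk] at hzw'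
    rw [hz, hw, Projectivization.mk_eq_mk_iff']
    have n1 := hne0 v hv z hz
    have n2 := hne0 v' hv' w hw
    have p1 := hperp v hv z hz
    have p2 := hperp v' hv' w hw
    set s := inner ℝ (v.1 - v.2 • c) u with hs
    set s' := inner ℝ (v'.1 - v'.2 • c) u with hs'
    have ht : v.2 = (s / s') * v'.2 := by
      field_simp at hzw' ⊢
      linarith
    have hx : v.1 - v.2 • c = (s / s') • (v'.1 - v'.2 • c) := by
      rw [← sub_eq_zero]
      apply eq_zero_of_inner h.ne
      · rw [inner_sub_left, inner_smul_left, ← hs, ← hs']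
        simp only [conj_trivial]
        field_simp
        ring
      · rw [inner_sub_left, inner_smul_left, p1, p2]
        simp
    refine ⟨s / s', ?_⟩
    ext1
    · rw [Prod.smul_fst]
      have : v.1 = (v.1 - v.2 • c) + v.2 • c := by abel
      rw [this, hx, ht, smul_sub, mul_smul]
      abel
    · rw [Prod.smul_snd, smul_eq_mul, ← ht]

end Pool.Agent.N396.C17
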