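import Mathlib
import Pool.Agent.N396.C17.Geo
import Pool.Agent.N396.C17.Aut

/-! No symmetry of a topological realization of the `(17_4)` configuration. -/

open Set Function

namespace Pool.Agent.N396.C17

theorem config_inj : ∀ j k : Fin 17, (∀ i : Fin 17, ((i : ℕ) + 1 ∈ config j ↔
    (i : ℕ) + 1 ∈ config k)) → j = k := by decide +kernel

theorem config_11 : ∀ j : Fin 17, 4 ∈ config j → 6 ∈ config j → j = 11 := by decide +kernel

variable (R : Realization)

theorem curve_injective : Injective R.curve := by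
  intro j k h
  apply config_inj
  intro i
  rw [← R.incidence, ← R.incidence, h]

/-- the core of the argument -/
theorem core {T : Plane ≃ᵃⁱ[ℝ] Plane} (hT : T ≠ AffineIsometryEquiv.refl ℝ Plane)
    (hR : R.IsProper) (h0 : extend T (R.point 0) = R.point 0)
    (h3 : extend T (R.point 3) = R.point 3) (h5 : extend T (R.point 5) = R.point 5)
    (h9 : extend T (R.point 9) = R.point 9) (hL : extend T '' R.curve 11 = R.curve 11) :
    False := by
  have hx : ∀ i, ∃ x, toRP2 x = R.point i := by
    intro i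
    have := hR.1 i
    unfold lineAtInfinity at this
    rw [mem_compl_iff, not_not] at this
    exact this
  choose x hx using hx
  have hfix : ∀ i, extend T (R.point i) = R.point i → T (x i) = x i := by
    intro i hi
    rw [← hx i, extend_toRP2] at hi
    exact toRP2_injective hi
  have hne : x 3 ≠ x 5 := by
    intro h
    have : R.point 3 = R.point 5 := by rw [← hx, ← hx, h]
    exact absurd (R.point_injective this) (by decide)
  obtain ⟨e1, e2⟩ := reflection hT (hfix 3 h3) (hfix 5 h5) hne
  have hrefl : IsRefl T (x 3) (x 5 - x 3) := ⟨sub_ne_zero.2 hne.symm, hfix 3 h3, e1, e2⟩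
  obtain ⟨γ, hγ, -, hr⟩ := R.isPseudoline 11
  have m3 : R.point 3 ∈ R.curve 11 := (R.incidence 3 11).2 (by decide)
  have m5 : R.point 5 ∈ R.curve 11 := (R.incidence 5 11).2 (by decide)
  have m9 : R.point 9 ∈ R.curve 11 := (R.incidence 9 11).2 (by decide)
  have n0 : R.point 0 ∉ R.curve 11 := fun h => absurd ((R.incidence 0 11).1 h) (by decide)
  have ne : ∀ i j : Fin 17, i ≠ j → R.point i ≠ R.point j := fun i j h => R.point_injective.ne h
  apply n0
  rw [← hx 0]
  exact hrefl.mem γ hγ hr hL m3 m5 m9 h3 h5 h9 (ne 3 5 (by decide)) (ne 3 9 (by decide))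
    (ne 5 9 (by decide)) (by rw [hx 3]; exact m3) (hfix 0 h0)

theorem main' (hR : R.IsProper) (T : Plane ≃ᵃⁱ[ℝ] Plane)
    (hT : T ≠ AffineIsometryEquiv.refl ℝ Plane)
    (hp : extend T '' Set.range R.point = Set.range R.point)
    (hc : (fun L => extend T '' L) '' Set.range R.curve = Set.range R.curve) : False := by
  have hσ : ∀ i, ∃ k, R.point k = extend T (R.point i) := by
    intro i
    have : extend T (R.point i) ∈ Set.range R.point := by
      rw [← hp]; exact ⟨_, ⟨i, rfl⟩, rfl⟩
    exact this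
  have hπ : ∀ j, ∃ k, R.curve k = extend T '' R.curve j := by
    intro j
    have : extend T '' R.curve j ∈ Set.range R.curve := by
      rw [← hc]; exact ⟨_, ⟨j, rfl⟩, rfl⟩
    exact this
  choose σ hσ using hσ
  choose π hπ using hπ
  have hσi : Injective σ := by
    intro i k h
    apply R.point_injective
    apply extend_injective T
    rw [← hσ, ← hσ, h]
  have hπi : Injective π := by
    intro i k h
    apply curve_injective R
    have : extend T '' R.curve i = extend T '' R.curve k := by rw [← hπ, ← hπ, h]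
    exact (extend_injective T).image_injective this
  have hπs : Surjective π := Finite.injective_iff_surjective.1 hπi
  have hinc : ∀ i j : Fin 17, ((i : ℕ) + 1 ∈ config j) ↔ ((σ i : ℕ) + 1 ∈ config (π j)) := by
    intro i j
    rw [← R.incidence, ← R.incidence, hσ, hπ]
    exact ((extend_injective T).mem_set_image).symm
  have key := Aut.aut hσi hπs hinc
  rcases key with ⟨k0, k3, k5, k9, k12⟩ | ⟨k0, k3, k5, k9, k12, k1⟩
  · refine core R hT hR (by rw [← hσ, k0]) (by rw [← hσ, k3]) (by rw [← hσ, k5])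
      (by rw [← hσ, k9]) ?_
    rw [← hπ]
    congr 1
    apply config_11
    · have := (hinc 3 11).1 (by decide)
      rw [k3] at this
      exact this
    · have := (hinc 5 11).1 (by decide)
      rw [k5] at this
      exact this
  · have hf : ∀ i, extend (T.trans T) (R.point i) = R.point (σ (σ i)) := by
      intro i
      rw [extend_trans, hσ, hσ]
    refine core (T := T.trans T) R ?_ hR (by rw [hf, k0]) (by rw [hf, k3]) (by rw [hf, k5])
      (by rw [hf, k9]) ?_
    · intro hid
      apply k1
      apply R.point_injective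
      rw [← hf 1, hid]
      generalize R.point 1 = p
      induction p using Projectivization.ind with
      | h v hv =>
      rw [extend_mk]
      congr 1
      obtain ⟨y, t⟩ := v
      simp [extendLin_apply]
      rfl
    · have h1 : extend (T.trans T) '' R.curve 11 = R.curve (π (π 11)) := by
        rw [hπ, hπ, ← Set.image_comp]
        congr 1
        ext p
        rw [extend_trans]
        rfl
      rw [h1]
      congr 1
      apply config_11
      · have := (hinc (σ 3) (π 11)).1 ((hinc 3 11).1 (by decide))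
        rw [k3] at this
        exact this
      · have := (hinc (σ 5) (π 11)).1 ((hinc 5 11).1 (by decide))
        rw [k5] at this
        exact this

/-- the square of the cosine of the angle between two lines, up to a factor -/
noncomputable def cosf (w : Plane × ℝ) : RP2 → ℝ :=
  Projectivization.lift (fun v => (v.1.1 0 * w.1 0 + v.1.1 1 * w.1 1 + v.1.2 * w.2) ^ 2 /
    (v.1.1 0 ^ 2 + v.1.1 1 ^ 2 + v.1.2 ^ 2)) (by
    intro a b t h
    have ht : t ≠ 0 := by
      rintro rfl
      exact a.2 (by rw [h, zero_smul])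
    rw [h]
    simp only [Prod.smul_fst, Prod.smul_snd, PiLp.smul_apply, smul_eq_mul]
    have h1 : (t * b.1.1 0 * w.1 0 + t * b.1.1 1 * w.1 1 + t * b.1.2 * w.2) ^ 2 =
      t ^ 2 * (b.1.1 0 * w.1 0 + b.1.1 1 * w.1 1 + b.1.2 * w.2) ^ 2 := by ring
    have h2 : ((t * b.1.1 0) ^ 2 + (t * b.1.1 1) ^ 2 + (t * b.1.2) ^ 2) =
      t ^ 2 * (b.1.1 0 ^ 2 + b.1.1 1 ^ 2 + b.1.2 ^ 2) := by ring
    rw [h1, h2, mul_div_mul_left _ _ (pow_ne_zero 2 ht)])

theorem sq_ne {v : Plane × ℝ} (hv : v ≠ 0) : 0 < v.1 0 ^ 2 + v.1 1 ^ 2 + v.2 ^ 2 := by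
  by_contra h
  push Not at h
  have h1 := sq_nonneg (v.1 0)
  have h2 := sq_nonneg (v.1 1)
  have h3 := sq_nonneg v.2
  have e1 : v.1 0 = 0 := by rw [← sq_eq_zero_iff]; linarith
  have e2 : v.1 1 = 0 := by rw [← sq_eq_zero_iff]; linarith
  have e3 : v.2 = 0 := by rw [← sq_eq_zero_iff]; linarith
  apply hv
  refine Prod.ext ?_ e3
  ext i
  fin_cases i
  · exact e1
  · exact e2

theorem continuous_cosf (w : Plane × ℝ) : Continuous (cosf w) := by
  rw [isQuot.continuous_iff]
  have e : (cosf w ∘ Projectivization.mk' ℝ : {v : Plane × ℝ // v ≠ 0} → ℝ) =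
      fun v => (v.1.1 0 * w.1 0 + v.1.1 1 * w.1 1 + v.1.2 * w.2) ^ 2 /
        (v.1.1 0 ^ 2 + v.1.1 1 ^ 2 + v.1.2 ^ 2) := rfl
  rw [e]
  exact Continuous.div (by fun_prop) (by fun_prop) (fun v => (sq_ne v.2).ne')

instance : T2Space RP2 := by
  refine ⟨fun p q hpq => ?_⟩
  induction p using Projectivization.ind with
  | h v hv =>
  induction q using Projectivization.ind with
  | h w hw =>
  refine separated_by_continuous (continuous_cosf w) ?_
  intro h
  apply hpq
  have hv' := sq_ne hv
  have hw' := sq_ne hw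
  have h' : (v.1 0 * w.1 0 + v.1 1 * w.1 1 + v.2 * w.2) ^ 2 / (v.1 0 ^ 2 + v.1 1 ^ 2 + v.2 ^ 2) =
    (w.1 0 * w.1 0 + w.1 1 * w.1 1 + w.2 * w.2) ^ 2 / (w.1 0 ^ 2 + w.1 1 ^ 2 + w.2 ^ 2) := h
  rw [div_eq_div_iff hv'.ne' hw'.ne'] at h'
  set A := v.1 0 with hA
  set B := v.1 1 with hB
  set C := v.2 with hC
  set a := w.1 0 with ha
  set b := w.1 1 with hb
  set c := w.2 with hc
  have key : (A * b - B * a) ^ 2 + (A * c - C * a) ^ 2 + (B * c - C * b) ^ 2 = 0 := by
    have h1 : (a ^ 2 + b ^ 2 + c ^ 2) *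
        ((A * a + B * b + C * c) ^ 2 - (A ^ 2 + B ^ 2 + C ^ 2) * (a ^ 2 + b ^ 2 + c ^ 2)) = 0 := by
      linear_combination h'
    rcases mul_eq_zero.1 h1 with h2 | h2
    · exact absurd h2 hw'.ne'
    · linear_combination -h2
  have s1 := sq_nonneg (A * b - B * a)
  have s2 := sq_nonneg (A * c - C * a)
  have s3 := sq_nonneg (B * c - C * b)
  have k1 : A * b - B * a = 0 := by rw [← sq_eq_zero_iff]; linarith
  have k2 : A * c - C * a = 0 := by rw [← sq_eq_zero_iff]; linarith
  have k3 : B * c - C * b = 0 := by rw [← sq_eq_zero_iff]; linarith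
  rw [Projectivization.mk_eq_mk_iff']
  refine ⟨(A * a + B * b + C * c) / (a ^ 2 + b ^ 2 + c ^ 2), ?_⟩
  have hne := hw'.ne'
  refine Prod.ext ?_ ?_
  · ext i
    fin_cases i
    · simp only [Prod.smul_fst, PiLp.smul_apply, smul_eq_mul]
      show _ * a = A
      field_simp
      linear_combination (-b) * k1 - c * k2
    · simp only [Prod.smul_fst, PiLp.smul_apply, smul_eq_mul]
      show _ * b = B
      field_simp
      linear_combination a * k1 - c * k3
  · simp only [Prod.smul_snd, smul_eq_mul]
    show _ * c = C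
    field_simp
    linear_combination a * k2 + b * k3

theorem dense_range : DenseRange toRP2 := by
  intro p
  induction p using Projectivization.ind with
  | h v hv =>
  obtain ⟨x, t⟩ := v
  by_cases ht : t = 0
  · subst ht
    have hx : x ≠ 0 := by
      rintro rfl
      exact hv rfl
    let ψ : ℝ → RP2 := fun s => Projectivization.mk' ℝ ⟨(x, s), fun h => hx (Prod.ext_iff.1 h).1⟩
    have hψ : Continuous ψ := isQuot.continuous.comp (Continuous.subtype_mk (by fun_prop) _)
    have h0 : (0 : ℝ) ∈ closure {s : ℝ | s ≠ 0} := by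
      have : Dense ({0}ᶜ : Set ℝ) := dense_compl_singleton 0
      exact this 0
    have := map_mem_closure hψ h0 (t := Set.range toRP2) (fun s hs => by
      have hs' : s ≠ 0 := hs
      refine ⟨s⁻¹ • x, ?_⟩
      unfold toRP2
      show _ = Projectivization.mk ℝ (x, s) _
      rw [Projectivization.mk_eq_mk_iff']
      refine ⟨s⁻¹, ?_⟩
      rw [Prod.smul_mk, smul_eq_mul, inv_mul_cancel₀ hs'])
    exact this
  · apply subset_closure
    refine ⟨t⁻¹ • x, ?_⟩
    unfold toRP2
    rw [Projectivization.mk_eq_mk_iff']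
    refine ⟨t⁻¹, ?_⟩
    rw [Prod.smul_mk, smul_eq_mul, inv_mul_cancel₀ ht]

theorem main (hR : R.IsProper) (T : Plane → Plane) : ¬ R.IsSymmetry T := by
  rintro ⟨hi, hne, F, hF, hext, hp, hc⟩
  let T' : Plane ≃ᵃⁱ[ℝ] Plane := hi.affineIsometryOfStrictConvexSpace.toAffineIsometryEquiv rfl
  have hT' : ∀ x, T' x = T x := fun x => rfl
  have hFe : F = extend T' := by
    refine dense_range.equalizer hF (continuous_extend T') ?_
    ext x
    simp only [comp_apply]
    rw [hext, extend_toRP2, hT']
  subst hFe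
  refine main' R hR T' ?_ hp hc
  intro h
  apply hne
  ext1 x
  rw [← hT', h]
  rfl

end Pool.Agent.N396.C17
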